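import Mathlib

namespace Pool.Agent.Results.MP_8292e8_an.SquareNotCyclic

open Filter Topology RCLike

/-- Some orbit has dense (real) convex hull. -/
def ConvexCyclic {𝕜 X : Type*} [RCLike 𝕜] [NormedAddCommGroup X] [NormedSpace 𝕜 X]
    [NormedSpace ℝ X] (T : X →L[𝕜] X) : Prop :=
  ∃ x : X, Dense (convexHull ℝ (Set.range fun n : ℕ => (T ^ n) x))

variable {𝕜 X : Type*} [RCLike 𝕜] [NormedAddCommGroup X] [NormedSpace 𝕜 X]

lemma exists_dual (v : X) : ∃ g : X →L[𝕜] 𝕜, (v ≠ 0 → g v = 1) ∧ (v = 0 → g = 0) := by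
  by_cases h : v = 0
  · exact ⟨0, fun h' => absurd h h', fun _ => rfl⟩
  · obtain ⟨g, hg⟩ := SeparatingDual.exists_eq_one (R := 𝕜) h
    exact ⟨g, fun _ => hg, fun h' => absurd h' h⟩

lemma biorth (y : ℕ → X) : ∃ (x : ℕ → X) (f : ℕ → X →L[𝕜] 𝕜), x 0 = y 0 ∧
    (∀ n m, n ≠ m → f n (x m) = 0) ∧ (∀ n, x n ≠ 0 → f n (x n) = 1) ∧
    ∀ n, y n ∈ Submodule.span 𝕜 (Set.range x) := by
  choose G hG1 hG0 using exists_dual (𝕜 := 𝕜) (X := X)
  let P : ℕ → X →L[𝕜] X := fun n => Nat.rec 0 (fun n P =>
    P + ((G (y n - P (y n))).comp (1 - P)).smulRight (y n - P (y n))) n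
  let x : ℕ → X := fun n => y n - P n (y n)
  let f : ℕ → X →L[𝕜] 𝕜 := fun n => (G (x n)).comp (1 - P n)
  have hP : ∀ n z, P (n + 1) z = P n z + f n z • x n := fun n z => rfl
  have hf : ∀ n z, f n z = G (x n) (z - P n z) := fun n z => rfl
  have hf0 : ∀ n, x n = 0 → f n = 0 := fun n h => by simp [f, hG0 _ h]
  have idem : ∀ n z, P n (P n z) = P n z := by
    intro n
    induction n with
    | zero => intro z; rfl
    | succ n ih =>
      intro z
      have h1 : P n (x n) = 0 := by simp [x, ih]
      have h2 : f n (P n z) = 0 := by rw [hf, ih]; simp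
      have h3 : f n (x n) • x n = x n := by
        by_cases h : x n = 0
        · simp [h]
        · rw [hf, h1, sub_zero, hG1 _ h, one_smul]
      rw [hP n (P (n + 1) z), hP n z, map_add, map_add, map_smul, map_smul, ih, h1, h2,
        smul_zero, add_zero, zero_add, smul_eq_mul, mul_smul, h3]
  have hPx : ∀ n, P n (x n) = 0 := fun n => by simp [x, idem]
  have hfx : ∀ n, x n ≠ 0 → f n (x n) = 1 := fun n h => by rw [hf, hPx, sub_zero, hG1 _ h]
  have hfP : ∀ n z, f n (P n z) = 0 := fun n z => by rw [hf, idem]; simp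
  have hlow : ∀ k n, k < n → P n (x k) = x k := by
    intro k n hkn
    induction n, hkn using Nat.le_induction with
    | base =>
      rw [hP, hPx, zero_add]
      by_cases h : x k = 0
      · simp [h]
      · rw [hfx k h, one_smul]
    | succ n _ ih => rw [hP, ← ih, hfP, zero_smul, add_zero, idem]
  have hup : ∀ n m, n < m → ∀ z, f n (P m z) = f n z := by
    intro n m hnm
    induction m, hnm using Nat.le_induction with
    | base =>
      intro z
      rw [hP, map_add, hfP, zero_add, map_smul]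
      by_cases h : x n = 0
      · simp [hf0 n h]
      · rw [hfx n h]; simp
    | succ m _ ih =>
      intro z
      have : f n (x m) = 0 := by simp only [x, map_sub, ih, sub_self]
      rw [hP, map_add, ih, map_smul, this]; simp
  have hspan : ∀ n z, P n z ∈ Submodule.span 𝕜 (Set.range x) := by
    intro n z
    induction n with
    | zero => exact Submodule.zero_mem _
    | succ n ih =>
      rw [hP]
      exact Submodule.add_mem _ ih (Submodule.smul_mem _ _ (Submodule.subset_span ⟨n, rfl⟩))
  refine ⟨x, f, by simp [x, P], fun n m h => ?_, hfx, fun n => ?_⟩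
  · rcases lt_or_gt_of_ne h with h | h
    · simp only [x, map_sub, hup n m h, sub_self]
    · rw [← hlow m n h, hfP]
  · have : y n = x n + P n (y n) := by simp [x]
    rw [this]
    exact Submodule.add_mem _ (Submodule.subset_span ⟨n, rfl⟩) (hspan n _)

lemma exists_omega : ∃ ω : 𝕜, ω ^ 4 = 1 ∧ (∀ c : 𝕜, c ≠ 0 → ∃ j : ℕ, 0 < re (ω ^ j * c)) ∧
    ∀ c : 𝕜, ∃ θ : 𝕜, θ ≠ 0 ∧ ∀ m : ℕ, 0 ≤ re (θ * ((ω ^ 2) ^ m * c)) := by
  rcases RCLike.I_mul_I_ax (K := 𝕜) with h | h
  · have hre : ∀ c : 𝕜, c = (re c : 𝕜) := fun c => by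
      have := RCLike.re_add_im c
      rw [h, mul_zero, add_zero] at this
      exact this.symm
    refine ⟨-1, by norm_num, fun c hc => ?_, fun c => ?_⟩
    · have : re c ≠ 0 := fun e => hc (by rw [hre c, e]; simp)
      rcases lt_or_gt_of_ne this with h1 | h1
      · exact ⟨1, by simpa using h1⟩
      · exact ⟨0, by simpa using h1⟩
    · rcases le_total 0 (re c) with h1 | h1
      · exact ⟨1, one_ne_zero, fun m => by simpa using h1⟩
      · exact ⟨-1, by simp, fun m => by simpa using h1⟩
  · have h' : (I : 𝕜) * I = -1 := h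
    have hI : im (I : 𝕜) = 1 := by
      rcases RCLike.I_eq_zero_or_im_I_eq_one (K := 𝕜) with e | e
      · rw [e] at h'
        simp at h'
      · exact e
    have h2 : (I : 𝕜) ^ 2 = -1 := by rw [sq, h']
    refine ⟨I, by rw [show (4 : ℕ) = 2 * 2 from rfl, pow_mul, h2]; norm_num,
      fun c hc => ?_, fun c => ?_⟩
    · by_contra hcon
      push Not at hcon
      have a0 := hcon 0
      have a1 := hcon 1
      have a2 := hcon 2
      have a3 := hcon 3
      rw [show (3 : ℕ) = 2 + 1 from rfl, pow_succ, h2] at a3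
      rw [h2] at a2
      simp [hI] at a0 a1 a2 a3
      apply hc
      apply RCLike.ext <;> simp <;> linarith
    · by_cases hc : c = 0
      · exact ⟨1, one_ne_zero, fun m => by simp [hc]⟩
      · refine ⟨I * (starRingEnd 𝕜) c, mul_ne_zero (by
          intro e; rw [e] at h'; simp at h') (by simpa using hc), fun m => ?_⟩
        have : I * (starRingEnd 𝕜) c * (((I : 𝕜) ^ 2) ^ m * c) =
            (((-1) ^ m * ‖c‖ ^ 2 : ℝ) : 𝕜) * I := by
          rw [h2]
          push_cast
          rw [← RCLike.conj_mul c]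
          ring
        rw [this, RCLike.re_ofReal_mul, RCLike.I_re, mul_zero]

theorem result [NormedSpace ℝ X] [IsScalarTower ℝ 𝕜 X] [CompleteSpace X]
    [TopologicalSpace.SeparableSpace X] [Nontrivial X] :
    ∃ S : X →L[𝕜] X, ConvexCyclic S ∧ ¬ ConvexCyclic (S ^ 2) := by
  classical
  obtain ⟨v, hv⟩ := exists_ne (0 : X)
  obtain ⟨x, f, hx0, hne, heq, hspan⟩ :=
    biorth (𝕜 := 𝕜) (X := X) (fun n => Nat.casesOn (motive := fun _ => X) n v
      (TopologicalSpace.denseSeq X))
  have hx0' : x 0 ≠ 0 := by rw [hx0]; exact hv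
  have hdense : Dense (Submodule.span 𝕜 (Set.range x) : Set X) :=
    (TopologicalSpace.denseRange_denseSeq X).mono (by rintro _ ⟨n, rfl⟩; exact hspan (n + 1))
  obtain ⟨ω, hω4, hωa, hωb⟩ := exists_omega (𝕜 := 𝕜)
  let s : ℕ → ℝ := fun n => 1 + ∑ k ∈ Finset.range (n + 1), ‖f k‖ * ‖x k‖
  have hs1 : ∀ n, 1 ≤ s n := fun n => le_add_of_nonneg_right (by positivity)
  have hs2 : ∀ n, ‖f n‖ * ‖x n‖ ≤ s n := fun n => by
    simp only [s, Finset.sum_range_succ]
    have : 0 ≤ ∑ k ∈ Finset.range n, ‖f k‖ * ‖x k‖ := by positivity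
    linarith
  let ε : ℕ → ℝ := fun n => (1 / 2) ^ n / s n
  have hε : ∀ n, 0 < ε n := fun n => div_pos (by positivity) (by linarith [hs1 n])
  have hanti : StrictAnti ε := strictAnti_nat_of_succ_lt fun n => by
    have h1 : s n ≤ s (n + 1) := by
      simp only [s, Finset.sum_range_succ _ (n + 1)]
      have : 0 ≤ ‖f (n + 1)‖ * ‖x (n + 1)‖ := by positivity
      linarith
    have h2 := hs1 n
    calc ε (n + 1) ≤ (1 / 2) ^ (n + 1) / s n :=
          div_le_div_of_nonneg_left (by positivity) (by linarith) h1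
      _ < ε n := by
          apply div_lt_div_of_pos_right _ (by linarith)
          rw [pow_succ]
          have : (0 : ℝ) < (1 / 2) ^ n := by positivity
          linarith
  have hsum : Summable fun n => ((ε n : ℝ) : 𝕜) • (f n).smulRight (x n) := by
    refine Summable.of_norm_bounded summable_geometric_two fun n => ?_
    rw [norm_smul, ContinuousLinearMap.norm_smulRight_apply, RCLike.norm_ofReal,
      abs_of_pos (hε n)]
    simp only [ε]
    rw [div_mul_eq_mul_div, div_le_iff₀ (by linarith [hs1 n])]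
    exact mul_le_mul_of_nonneg_left (hs2 n) (by positivity)
  set D : X →L[𝕜] X := ∑' n, ((ε n : ℝ) : 𝕜) • (f n).smulRight (x n) with hD
  have hDz : ∀ z, HasSum (fun n => (((ε n : ℝ) : 𝕜) * f n z) • x n) (D z) := fun z => by
    have := (ContinuousLinearMap.apply 𝕜 X z).hasSum hsum.hasSum
    simp only [mul_smul]
    exact this
  have hDx : ∀ n, D (x n) = ((ε n : ℝ) : 𝕜) • x n := fun n => by
    have h1 := hasSum_single (f := fun k => (((ε k : ℝ) : 𝕜) * f k (x n)) • x k) n
      (fun k hk => by simp [hne k n hk])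
    rw [(hDz (x n)).unique h1]
    by_cases h : x n = 0
    · simp [h]
    · rw [heq n h, mul_one]
  have hfD : ∀ z, f 0 (D z) = ((ε 0 : ℝ) : 𝕜) * f 0 z := fun z => by
    have h1 := (f 0).hasSum (hDz z)
    have h2 := hasSum_single (f := fun k => f 0 ((((ε k : ℝ) : 𝕜) * f k z) • x k)) 0
      (fun k hk => by simp [hne 0 k (Ne.symm hk)])
    rw [h1.unique h2, map_smul, heq 0 hx0', smul_eq_mul, mul_one]
  let lam : ℕ → ℝ := fun n => 2 + ε n
  have hlam : ∀ n, 2 < lam n := fun n => by simp only [lam]; linarith [hε n]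
  let S : X →L[𝕜] X := ω • ((2 : 𝕜) • 1 + D)
  have hSx : ∀ n m, (S ^ m) (x n) = (ω ^ m * ((lam n ^ m : ℝ) : 𝕜)) • x n := by
    intro n m
    have h1 : S (x n) = (ω * ((lam n : ℝ) : 𝕜)) • x n := by
      simp only [S, lam, ContinuousLinearMap.smul_apply, ContinuousLinearMap.add_apply,
        ContinuousLinearMap.one_apply, hDx, ← add_smul, smul_smul]
      push_cast
      rfl
    induction m with
    | zero => simp
    | succ m ih =>
      rw [pow_succ', ContinuousLinearMap.mul_apply, ih, map_smul, h1, smul_smul]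
      congr 1
      push_cast
      ring
  have hfS : ∀ m z, f 0 ((S ^ m) z) = ω ^ m * ((lam 0 ^ m : ℝ) : 𝕜) * f 0 z := by
    intro m
    induction m with
    | zero => simp
    | succ m ih =>
      intro z
      rw [pow_succ, ContinuousLinearMap.mul_apply, ih]
      simp only [S, lam, ContinuousLinearMap.smul_apply, ContinuousLinearMap.add_apply,
        ContinuousLinearMap.one_apply, map_smul, map_add, hfD, smul_eq_mul]
      push_cast
      ring
  refine ⟨S, ?_, ?_⟩
  · let c : ℕ → ℝ := fun n => (1 / 2) ^ n / (1 + ‖x n‖)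
    have hc : ∀ n, 0 < c n := fun n => by positivity
    have hcx : ∀ n, c n * ‖x n‖ ≤ (1 / 2) ^ n := fun n => by
      simp only [c]
      rw [div_mul_eq_mul_div, div_le_iff₀ (by positivity)]
      exact mul_le_mul_of_nonneg_left (by linarith) (by positivity)
    have hsx : Summable fun n => ((c n : ℝ) : 𝕜) • x n := by
      refine Summable.of_norm_bounded summable_geometric_two fun n => ?_
      rw [norm_smul, RCLike.norm_ofReal, abs_of_pos (hc n)]
      exact hcx n
    refine ⟨∑' n, ((c n : ℝ) : 𝕜) • x n, ?_⟩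
    by_contra hcon
    rw [dense_iff_closure_eq, Set.eq_univ_iff_forall] at hcon
    push Not at hcon
    obtain ⟨w, hw⟩ := hcon
    obtain ⟨g, u, hgu, hgw⟩ := RCLike.geometric_hahn_banach_closed_point (𝕜 := 𝕜)
      (convex_convexHull ℝ _).closure isClosed_closure hw
    have hbd : ∀ m : ℕ, re (g ((S ^ m) (∑' n, ((c n : ℝ) : 𝕜) • x n))) < u := fun m =>
      hgu _ (subset_closure (subset_convexHull ℝ _ ⟨m, rfl⟩))
    have hex : ∃ n, g (x n) ≠ 0 := by
      by_contra h0
      push Not at h0
      have : g = 0 := ContinuousLinearMap.ext_on hdense (by rintro _ ⟨n, rfl⟩; simp [h0])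
      have h1 := hbd 0
      rw [this] at h1 hgw
      simp at h1 hgw
      linarith
    set n0 := Nat.find hex with hn0
    have hn0a : g (x n0) ≠ 0 := Nat.find_spec hex
    have hn0b : ∀ n < n0, g (x n) = 0 := fun n hn => by
      have := Nat.find_min hex hn
      simpa using this
    let t : ℕ → ℕ → 𝕜 := fun m n => ((c n * (lam n / lam n0) ^ m : ℝ) : 𝕜) * g (x n)
    have hl0 : 0 < lam n0 := by linarith [hlam n0]
    have hval : ∀ m : ℕ, g ((S ^ m) (∑' n, ((c n : ℝ) : 𝕜) • x n)) =
        ((lam n0 ^ m : ℝ) : 𝕜) * (ω ^ m * ∑' n, t m n) := by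
      intro m
      have h1 := (g.comp (S ^ m)).hasSum hsx.hasSum
      rw [← tsum_mul_left, ← tsum_mul_left]
      refine h1.tsum_eq.symm.trans (tsum_congr fun n => ?_)
      simp only [ContinuousLinearMap.comp_apply, map_smul, hSx, t, smul_eq_mul]
      have : ((lam n0 : ℝ) : 𝕜) ≠ 0 := by exact_mod_cast hl0.ne'
      push_cast
      rw [div_pow]
      field_simp
    have hlim : Tendsto (fun m => ∑' n, t m n) atTop
        (𝓝 (∑' n, if n = n0 then ((c n0 : ℝ) : 𝕜) * g (x n0) else 0)) := by
      refine tendsto_tsum_of_dominated_convergence (bound := fun n => ‖g‖ * (1 / 2) ^ n)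
        (summable_geometric_two.mul_left _) (fun n => ?_) (Eventually.of_forall fun m n => ?_)
      · rcases lt_trichotomy n n0 with h | h | h
        · simp [t, hn0b n h, h.ne]
        · subst h
          simp [t, hl0.ne']
        · rw [if_neg h.ne']
          have h1 : lam n / lam n0 < 1 := by
            rw [div_lt_one hl0]; simp only [lam]; linarith [hanti h]
          have h2 : 0 ≤ lam n / lam n0 := div_nonneg (by linarith [hlam n]) hl0.le
          have h3 := (tendsto_pow_atTop_nhds_zero_of_lt_one h2 h1).const_mul (c n)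
          have h4 := ((RCLike.continuous_ofReal (K := 𝕜)).tendsto _).comp h3
          have h5 := h4.mul_const (g (x n))
          simpa [t] using h5
      · rcases lt_or_ge n n0 with h | h
        · simp only [t, hn0b n h, mul_zero, norm_zero]; positivity
        · have h1 : lam n / lam n0 ≤ 1 := by
            rw [div_le_one hl0]; simp only [lam]; linarith [hanti.antitone h]
          have h2 : 0 ≤ lam n / lam n0 := div_nonneg (by linarith [hlam n]) hl0.le
          have h3 : (lam n / lam n0) ^ m ≤ 1 := pow_le_one₀ h2 h1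
          simp only [t, norm_mul, RCLike.norm_ofReal]
          rw [abs_of_nonneg (mul_nonneg (hc n).le (pow_nonneg h2 m))]
          calc c n * (lam n / lam n0) ^ m * ‖g (x n)‖ ≤ c n * 1 * (‖g‖ * ‖x n‖) := by
                have := (hc n).le
                gcongr
                exact g.le_opNorm _
            _ = ‖g‖ * (c n * ‖x n‖) := by ring
            _ ≤ _ := by gcongr; exact hcx n
    rw [tsum_ite_eq] at hlim
    obtain ⟨j, hj⟩ := hωa (((c n0 : ℝ) : 𝕜) * g (x n0))
      (mul_ne_zero (by exact_mod_cast (hc n0).ne') hn0a)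
    have hsub : Tendsto (fun k : ℕ => 4 * k + j) atTop atTop :=
      tendsto_atTop_mono (fun k => by simp only [id]; omega) tendsto_id
    have h1 := (RCLike.continuous_re.tendsto _).comp ((hlim.comp hsub).const_mul (ω ^ j))
    have h2 := (tendsto_pow_atTop_atTop_of_one_lt (show 1 < lam n0 by linarith [hlam n0])).comp hsub
    obtain ⟨k, hk⟩ := ((h2.atTop_mul_pos hj h1).eventually_gt_atTop u).exists
    have h3 := hbd (4 * k + j)
    rw [hval, RCLike.re_ofReal_mul, pow_add ω, pow_mul, hω4, one_pow, one_mul] at h3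
    exact lt_asymm hk h3
  · rintro ⟨z, hz⟩
    obtain ⟨θ, hθ, hθm⟩ := hωb (f 0 z)
    have hcl : IsClosed {w : X | 0 ≤ re (θ * f 0 w)} :=
      isClosed_le continuous_const (by fun_prop)
    have hcv : Convex ℝ {w : X | 0 ≤ re (θ * f 0 w)} := by
      intro a ha b hb p q hp hq _
      simp only [Set.mem_ofPred_eq] at ha hb ⊢
      rw [← algebraMap_smul 𝕜 p a, ← algebraMap_smul 𝕜 q b, map_add, map_smul, map_smul,
        smul_eq_mul, smul_eq_mul, mul_add, map_add, mul_left_comm, mul_left_comm θ]
      simp only [RCLike.algebraMap_eq_ofReal, RCLike.re_ofReal_mul]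
      positivity
    have hsub : convexHull ℝ (Set.range fun n : ℕ => ((S ^ 2) ^ n) z) ⊆
        {w : X | 0 ≤ re (θ * f 0 w)} := by
      refine convexHull_min ?_ hcv
      rintro _ ⟨n, rfl⟩
      simp only [Set.mem_ofPred_eq]
      rw [← pow_mul, hfS, pow_mul]
      have : θ * ((ω ^ 2) ^ n * ((lam 0 ^ (2 * n) : ℝ) : 𝕜) * f 0 z) =
          ((lam 0 ^ (2 * n) : ℝ) : 𝕜) * (θ * ((ω ^ 2) ^ n * f 0 z)) := by ring
      rw [this, RCLike.re_ofReal_mul]
      exact mul_nonneg (pow_nonneg (by linarith [hlam 0]) _) (hθm n)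
    have hall := (hz.mono hsub).closure_eq
    rw [hcl.closure_eq, Set.eq_univ_iff_forall] at hall
    have := hall ((-θ⁻¹) • x 0)
    simp only [Set.mem_ofPred_eq, map_smul, heq 0 hx0', smul_eq_mul, mul_one, mul_neg,
      mul_inv_cancel₀ hθ] at this
    simp at this
    linarith

end Pool.Agent.Results.MP_8292e8_an.SquareNotCyclic
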